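import Pool.Agent.H7.FactProof
import Pool.Agent.H7.FactSix

set_option autoImplicit false

namespace Pool.Agent.Results.MP_3f0bb6_co.Seven

open Pool.Agent.H7.Fact

/-- A perfect matching of the complete graph, given by its partner map. -/
def IsPM {N : ℕ} (m : Fin N → Fin N) : Prop := ∀ u, m (m u) = u ∧ m u ≠ u

theorem result : ∃ (n : ℕ) (D : Finset (Fin (2 * n) → Fin (2 * n))) (c : ℕ),
    6 ≤ n ∧ 0 < c ∧ D.Nonempty ∧ (∀ m ∈ D, IsPM m) ∧ (∃ m, IsPM m ∧ m ∉ D) ∧
    ∀ S : Finset (Fin (2 * n)), S.card = 6 →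
      (D.filter (fun m => ∀ u, u ∈ S ↔ m u ∈ S)).card = c := by
  refine ⟨7, D, 180, by norm_num, by norm_num,
    ⟨_, Finset.mem_image.2 ⟨0, by simp, rfl⟩⟩, D_pm, ⟨_, D_miss⟩, fun S hS => ?_⟩
  set l := (List.finRange 14).filter (fun u => decide (u ∈ S)) with hl
  have mem : ∀ u, u ∈ l ↔ u ∈ S := by intro u; simp [hl]
  have hlen : l.length = 6 := by
    rw [← List.toFinset_card_of_nodup ((List.nodup_finRange 14).filter _), ← hS]
    congr 1
    ext u
    simp
  have hx := List.all_eq_true.1 six_ok l (List.mem_sublistsLen.2 ⟨List.filter_sublist, hlen⟩)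
  refine D_card _ _ _ hx (fun i hi => ?_) (fun i hi => ?_)
  · have h2 : (setm l).testBit i = true → i < 15444 := by
      rw [setm, testBit_foldr_and, Nat.testBit_two_pow_sub_one]
      exact fun h => of_decide_eq_true h.2
    exact h2 hi
  · rw [setm, testBit_foldr_and, Nat.testBit_two_pow_sub_one]
    simp only [rowm, testBit_foldr_or, Nat.zero_testBit, ← f_eq_iff hi, mem, hi, decide_true,
      and_true, Bool.false_eq_true, or_false, exists_eq_right']
    constructor
    · exact fun h u hu => (h u).1 hu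
    · exact fun h u => ⟨h u, fun hu => by simpa [(f_pm hi u).1] using h _ hu⟩

end Pool.Agent.Results.MP_3f0bb6_co.Seven
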